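import Pool.Agent.H47.KL.LIP
import Pool.Agent.H83.KL.VAR

/-!
# Project KL, module GRO: growth of the posterior means
-/

set_option autoImplicit false

open MeasureTheory Set
open scoped ContDiff

namespace Pool.Agent.H19.KL

open Pool.Agent.H84 Pool.Agent.H84.Sym Pool.Agent.H84.Sym.P2x Pool.Agent.H84.Sym.C29

open LIPx in
/-- module GRO -/
theorem gro_thm (E : Type) [NormedAddCommGroup E] [InnerProductSpace ℝ E] [FiniteDimensional ℝ E]
    [MeasurableSpace E] [BorelSpace E] (h1 : DAVStmt E) (h2 : CONStmt E) : GROStmt E := by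
  intro U s h F hF
  obtain ⟨hs, t, C, hU⟩ := id h
  have ht := hU.pos
  refine ⟨(h1 U s h F hF).1.continuous, ?_⟩
  obtain ⟨A, B, hA, hB, hAB⟩ := Gr.norm hF.2
  have hlip : ∀ k : ℝ, 0 ≤ k → ∀ x y : E, |k * ‖x‖ - k * ‖y‖| ≤ k * ‖x - y‖ := by
    intro k hk x y
    rw [← mul_sub, abs_mul, abs_of_nonneg hk]
    exact mul_le_mul_of_nonneg_left (abs_norm_sub_norm_le x y) hk
  have hcont : ∀ k : ℝ, Continuous (fun x : E => k * ‖x‖) := fun k =>
    continuous_const.mul continuous_norm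
  set X : E → ℝ := fun x => Real.exp (B * ‖x‖) with hXdef
  have hX : GC X := (h2 _ _ _ hU _ B (hcont B) hB (hlip B hB)).1
  have hXm : GC (fun x : E => Real.exp (-(B * ‖x‖))) :=
    (h2 _ _ _ hU _ B (hcont B) hB (hlip B hB)).2.1
  have hX0 : ∀ x, 0 ≤ X x := fun x => (Real.exp_pos _).le
  have hX1 : ∀ x, 1 ≤ X x := fun x => Real.one_le_exp (by positivity)
  have hXge : ∀ y, 1 ≤ av U s X y := fun y => by
    have := av_mono h (GC.const (H := E) 1) hX hX1 y
    rwa [av_const h] at this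
  have hpos : ∀ y, 0 < av U s X y := fun y => lt_of_lt_of_le one_pos (hXge y)
  have hvar : ∀ y w : E, av U s (fun x => (inner ℝ x w : ℝ) ^ 2) y -
      av U s (fun x => inner ℝ x w) y ^ 2 ≤ ‖w‖ ^ 2 / t := by
    intro y w
    have hp := np_pot (pot_pt hs hU y)
    have := var_thm E _ _ _ hp (prob_np h y) w
    rw [int_np h (fun x => (inner ℝ x w : ℝ) ^ 2), int_np h (fun x => (inner ℝ x w : ℝ))] at this
    exact this
  set Γ : ℝ := Real.exp ((2 * B) ^ 2 / t) with hΓ
  have hΓ0 : 0 < Γ := Real.exp_pos _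
  have hrev : ∀ y, av U s (fun x => X x ^ 2) y ≤ Γ * av U s X y ^ 2 := by
    intro y
    have hp := np_pot (pot_pt hs hU y)
    obtain ⟨c1, c2, c3⟩ := h2 _ _ _ hp (fun x => 2 * B * ‖x‖) (2 * B) (hcont _) (by positivity)
      (hlip _ (by positivity))
    have e1 : (fun x : E => Real.exp (2 * B * ‖x‖)) = fun x => X x ^ 2 := by
      funext x
      rw [hXdef, ← Real.exp_nat_mul]
      congr 1
      push_cast
      ring
    have e2 : (fun x : E => Real.exp (-(2 * B * ‖x‖))) =
        fun x => Real.exp (-(B * ‖x‖)) ^ 2 := by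
      funext x
      rw [← Real.exp_nat_mul]
      congr 1
      push_cast
      ring
    have := prob_np h y
    rw [int_np h, int_np h, e1, e2] at c3
    simp only [probReal_univ, one_pow, mul_one] at c3
    -- Jensen
    set a := av U s (fun x => X x ^ 2) y with ha
    set b := av U s (fun x => Real.exp (-(B * ‖x‖)) ^ 2) y with hb
    set m := av U s X y with hm
    set n := av U s (fun x => Real.exp (-(B * ‖x‖))) y with hn
    have a0 : 0 ≤ a := av_nonneg h (fun x => sq_nonneg _) y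
    have b0 : 0 ≤ b := av_nonneg h (fun x => sq_nonneg _) y
    have m0 : 0 < m := hpos y
    have hnb : n ^ 2 ≤ b := by
      have := var_nonneg h hXm y
      linarith
    have hmn : 1 ≤ m * n := by
      -- `0 ≤ av ((X / m - 1)^2 * X⁻¹)`
      have k1 := av_nonneg h (F := fun x => (m⁻¹ * X x - 1) ^ 2 * Real.exp (-(B * ‖x‖)))
        (fun x => mul_nonneg (sq_nonneg _) (Real.exp_pos _).le) y
      have e3 : (fun x => (m⁻¹ * X x - 1) ^ 2 * Real.exp (-(B * ‖x‖))) =
          fun x => (m⁻¹) ^ 2 * X x + ((-2 * m⁻¹) + Real.exp (-(B * ‖x‖))) := by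
        funext x
        have : X x * Real.exp (-(B * ‖x‖)) = 1 := by
          rw [hXdef, ← Real.exp_add]
          simp
        have e4 : X x ^ 2 * Real.exp (-(B * ‖x‖)) = X x := by
          rw [pow_two, mul_assoc, this, mul_one]
        calc _ = (m⁻¹) ^ 2 * (X x ^ 2 * Real.exp (-(B * ‖x‖))) -
            2 * m⁻¹ * (X x * Real.exp (-(B * ‖x‖))) + Real.exp (-(B * ‖x‖)) := by ring
          _ = _ := by rw [e4, this]; ring
      rw [e3, av_add h ((GC.const (H := E) _).mul hX) ((GC.const (H := E) _).add hXm),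
        av_add h (GC.const (H := E) _) hXm, av_const_mul h, av_const h, ← hm, ← hn] at k1
      have e5 : m⁻¹ ^ 2 * m = m⁻¹ := by field_simp
      rw [e5] at k1
      have k2 : m⁻¹ ≤ n := by linarith
      calc (1:ℝ) = m * m⁻¹ := (mul_inv_cancel₀ m0.ne').symm
        _ ≤ m * n := mul_le_mul_of_nonneg_left k2 m0.le
    have hmn2 : 1 ≤ m ^ 2 * b := by
      calc (1:ℝ) ≤ (m * n) ^ 2 := one_le_pow₀ hmn
        _ = m ^ 2 * n ^ 2 := by ring
        _ ≤ m ^ 2 * b := by gcongr
    calc a = a * 1 := (mul_one a).symm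
      _ ≤ a * (m ^ 2 * b) := mul_le_mul_of_nonneg_left hmn2 a0
      _ = (a * b) * m ^ 2 := by ring
      _ ≤ Γ * m ^ 2 := by gcongr
  obtain ⟨hC1, hD⟩ := h1 U s h X hX
  have hdiff : Differentiable ℝ (av U s X) := hC1.differentiable (by norm_num)
  set L : E → ℝ := fun y => Real.log (av U s X y) with hL
  have hLd : ∀ y, HasFDerivAt L ((av U s X y)⁻¹ • fderiv ℝ (av U s X) y) y := fun y =>
    (hdiff y).hasFDerivAt.log (hpos y).ne'
  set ℓ : ℝ := s * Real.sqrt (Γ / t) with hℓ
  have hℓ0 : 0 ≤ ℓ := by positivity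
  have hbound : ∀ y, ‖fderiv ℝ L y‖ ≤ ℓ := by
    intro y
    rw [(hLd y).fderiv]
    refine ContinuousLinearMap.opNorm_le_bound _ hℓ0 fun w => ?_
    rw [smul_apply, smul_eq_mul, norm_mul, norm_inv, Real.norm_eq_abs, Real.norm_eq_abs,
      abs_of_pos (hpos y), inv_mul_le_iff₀ (hpos y)]
    rw [hD y w]
    have hc := cov_le h hX (gc_inner w) y
    have hv := hvar y w
    have hv0 := var_nonneg h (gc_inner w) y
    have hr := hrev y
    have hp := hpos y
    refine abs_le_of_sq_le_sq ?_ (by positivity)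
    have e1 : (av U s X y * (ℓ * ‖w‖)) ^ 2 =
        s ^ 2 * ((Γ / t) * av U s X y ^ 2 * ‖w‖ ^ 2) := by
      rw [hℓ, mul_pow, mul_pow, mul_pow, Real.sq_sqrt (by positivity)]
      ring
    rw [e1, mul_pow]
    refine mul_le_mul_of_nonneg_left ?_ (sq_nonneg s)
    refine hc.trans ?_
    calc _ ≤ (Γ * av U s X y ^ 2) * (‖w‖ ^ 2 / t) := mul_le_mul hr hv hv0 (by positivity)
      _ = _ := by ring
  refine ⟨A * av U s X 0, ℓ, fun y => ?_⟩
  have hl := Convex.norm_image_sub_le_of_norm_fderiv_le (𝕜 := ℝ) (f := L) (s := Set.univ)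
    (C := ℓ) (x := 0) (y := y) (fun x _ => (hLd x).differentiableAt)
    (fun x _ => hbound x) convex_univ (Set.mem_univ _) (Set.mem_univ _)
  rw [sub_zero, Real.norm_eq_abs] at hl
  have hl2 : L y ≤ L 0 + ℓ * ‖y‖ := by linarith [(abs_le.1 hl).2]
  have hl3 : av U s X y ≤ av U s X 0 * Real.exp (ℓ * ‖y‖) := by
    have := Real.exp_le_exp.2 hl2
    rwa [Real.exp_add, hL, Real.exp_log (hpos y), Real.exp_log (hpos 0)] at this
  have hle : ∀ x, |F x| ≤ A * X x := hAB
  have g : GC (fun x => A * X x) := (GC.const (H := E) A).mul hX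
  have u1 : av U s F y ≤ av U s (fun x => A * X x) y :=
    av_mono h hF g (fun x => (le_abs_self _).trans (hle x)) y
  have u2 : av U s (fun x => -(A * X x)) y ≤ av U s F y :=
    av_mono h g.neg hF (fun x => neg_le_of_neg_le ((neg_le_abs _).trans (hle x))) y
  have u3 : av U s (fun x => -(A * X x)) y = -(A * av U s X y) := by
    have e : (fun x => -(A * X x)) = fun x => (-A) * X x := by funext x; ring
    rw [e, av_const_mul h]
    ring
  rw [av_const_mul h] at u1
  rw [u3] at u2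
  calc |av U s F y| ≤ A * av U s X y := abs_le.2 ⟨u2, u1⟩
    _ ≤ A * (av U s X 0 * Real.exp (ℓ * ‖y‖)) := mul_le_mul_of_nonneg_left hl3 hA
    _ = _ := by ring

end Pool.Agent.H19.KL
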