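import Pool.Agent.H47.KL.LIP
import Pool.Agent.H70.KL.DAV

/-!
# Project KL, module HES: the potential of the law of `x + noise`
-/

set_option autoImplicit false

open MeasureTheory Set
open scoped ContDiff

namespace Pool.Agent.H19.KL

open Pool.Agent.H84 Pool.Agent.H84.Sym Pool.Agent.H84.Sym.P2x Pool.Agent.H84.Sym.C29

open LIPx in
/-- Cauchy-Schwarz for the posterior covariance of two linear functionals -/
theorem hes_cov {E : Type} [NormedAddCommGroup E] [InnerProductSpace ℝ E] [FiniteDimensional ℝ E]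
    [MeasurableSpace E] [BorelSpace E] (h2 : VARStmt E) {U : E → ℝ} {t C s : ℝ} (hU : Pot U t C)
    (hs : 0 < s) (y w e : E) :
    |av U s (fun x => inner ℝ x w * inner ℝ x e) y -
      av U s (fun x => inner ℝ x w) y * av U s (fun x => inner ℝ x e) y| ≤ ‖w‖ * ‖e‖ / s := by
  have h := adm_of_pot hU hs
  have ht := hU.pos
  set m := av U s (fun x => inner ℝ x w) y with hm
  have g1 : GC (fun x : E => (inner ℝ x w : ℝ) - m) := (gc_inner w).sub (GC.const m)
  have hc := cov_le h g1 (gc_inner e) y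
  have e1 : av U s (fun x => ((inner ℝ x w : ℝ) - m)) y = 0 := by
    rw [av_sub h (gc_inner w) (GC.const m), av_const h, ← hm, sub_self]
  have e2 : av U s (fun x => ((inner ℝ x w : ℝ) - m) * inner ℝ x e) y =
      av U s (fun x => inner ℝ x w * inner ℝ x e) y - m * av U s (fun x => inner ℝ x e) y := by
    have : (fun x : E => ((inner ℝ x w : ℝ) - m) * inner ℝ x e) =
        fun x => inner ℝ x w * inner ℝ x e - m * inner ℝ x e := by funext x; ring
    rw [this, av_sub h ((gc_inner w).mul (gc_inner e)) ((GC.const (H := E) m).mul (gc_inner e)),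
      av_const_mul h]
  have e3 : av U s (fun x => ((inner ℝ x w : ℝ) - m) ^ 2) y =
      av U s (fun x => (inner ℝ x w : ℝ) ^ 2) y - m ^ 2 := by
    have : (fun x : E => ((inner ℝ x w : ℝ) - m) ^ 2) =
        fun x => (inner ℝ x w : ℝ) ^ 2 + ((-2 * m) * inner ℝ x w + m ^ 2) := by funext x; ring
    rw [this, av_add h (gc_inner w).sq (((GC.const (H := E) (-2 * m)).mul (gc_inner w)).add
      (GC.const (m ^ 2))), av_add h ((GC.const (H := E) (-2 * m)).mul (gc_inner w))
      (GC.const (m ^ 2)), av_const_mul h, av_const h, ← hm]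
    ring
  rw [e1, e2, e3, zero_mul, sub_zero] at hc
  have v1 := var_le h2 hU hs y w
  have v2 := var_le h2 hU hs y e
  rw [← hm] at v1
  have v3 := var_nonneg h (gc_inner e) y
  have hts : ∀ w : E, ‖w‖ ^ 2 / (t + s) ≤ ‖w‖ ^ 2 / s := fun w =>
    div_le_div_of_nonneg_left (sq_nonneg _) hs (by linarith)
  refine abs_le_of_sq_le_sq ?_ (by positivity)
  refine hc.trans ?_
  calc _ ≤ (‖w‖ ^ 2 / s) * (‖e‖ ^ 2 / s) :=
        mul_le_mul (v1.trans (hts w)) (v2.trans (hts e)) v3 (by positivity)
    _ = _ := by ring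

open LIPx in
/-- module HES -/
theorem hes_thm (E : Type) [NormedAddCommGroup E] [InnerProductSpace ℝ E] [FiniteDimensional ℝ E]
    [MeasurableSpace E] [BorelSpace E] (h1 : NCDStmt E) (h2 : VARStmt E) : HESStmt E := by
  intro U t C s hU hs
  have h := adm_of_pot hU hs
  have ht := hU.pos
  have hDAV := dav_thm E h1
  obtain ⟨hN, hN'⟩ := h1 U s h (fun _ => 1) (GC.const 1)
  have hpos := NI_one_pos h
  have hgs := gs_pos (E := E) hs
  have hW2 : ContDiff ℝ 2 (WW U s) := by
    unfold WW
    refine ContDiff.neg (ContDiff.log (hN.div_const _) fun y => ?_)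
    exact (div_pos (hpos y) hgs).ne'
  have hWd : Differentiable ℝ (WW U s) := hW2.differentiable (by norm_num)
  have hNd : Differentiable ℝ (NI U s (fun _ => 1)) := hN.differentiable (by norm_num)
  have hWe : WW U s = fun y => -(Real.log (NI U s (fun _ => 1) y) - Real.log (gs E s)) := by
    funext y
    rw [WW, Real.log_div (hpos y).ne' hgs.ne']
  have hgrad : ∀ y w : E, fderiv ℝ (WW U s) y w =
      s * (inner ℝ y w - av U s (fun x => inner ℝ x w) y) := by
    intro y w
    have hd : HasFDerivAt (WW U s)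
        (-((NI U s (fun _ => 1) y)⁻¹ • fderiv ℝ (NI U s (fun _ => 1)) y)) y := by
      rw [hWe]
      exact (((hNd y).hasFDerivAt.log (hpos y).ne').sub_const _).neg
    rw [hd.fderiv, neg_apply, smul_apply, smul_eq_mul, hN' y w]
    unfold av
    have := (hpos y).ne'
    simp only [one_mul]
    field_simp
    ring
  have hdiff1 : ContDiff ℝ 1 (fderiv ℝ (WW U s)) := hW2.fderiv_right (by norm_num)
  have hd1 : Differentiable ℝ (fderiv ℝ (WW U s)) := hdiff1.differentiable (by norm_num)
  have hsec : ∀ y w e : E, fderiv ℝ (fderiv ℝ (WW U s)) y e w =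
      s * (inner ℝ e w - s * (av U s (fun x => inner ℝ x w * inner ℝ x e) y -
        av U s (fun x => inner ℝ x w) y * av U s (fun x => inner ℝ x e) y)) := by
    intro y w e
    obtain ⟨a1, a2⟩ := hDAV U s h (fun x => inner ℝ x w) (gc_inner w)
    have b1 : HasFDerivAt (fun y => fderiv ℝ (WW U s) y w)
        ((fderiv ℝ (fderiv ℝ (WW U s)) y).flip w) y := by
      have := (hd1 y).hasFDerivAt.clm_apply (hasFDerivAt_const w y)
      refine this.congr_fderiv ?_
      ext z
      simp
    have b2 : HasFDerivAt (fun y => fderiv ℝ (WW U s) y w)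
        (s • (innerSL ℝ w - fderiv ℝ (av U s (fun x => inner ℝ x w)) y)) y := by
      have e1 : (fun y => fderiv ℝ (WW U s) y w) =
          fun y => s * (inner ℝ w y - av U s (fun x => inner ℝ x w) y) := by
        funext y
        rw [hgrad y w, real_inner_comm]
      rw [e1]
      have e2 : HasFDerivAt (fun y : E => (inner ℝ w y : ℝ)) (innerSL ℝ w) y :=
        (innerSL ℝ w).hasFDerivAt
      exact (e2.sub ((a1.differentiable (by norm_num)) y).hasFDerivAt).const_mul s
    have b3 := congrArg (fun L => L e) (b1.unique b2)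
    simp only [ContinuousLinearMap.flip_apply, smul_apply, sub_apply, innerSL_apply_apply,
      smul_eq_mul] at b3
    rw [b3, a2 y e, real_inner_comm]
  have hsec2 : ∀ y w : E, fderiv ℝ (fderiv ℝ (WW U s)) y w w = s * ‖w‖ ^ 2 -
      s ^ 2 * (av U s (fun x => (inner ℝ x w) ^ 2) y - av U s (fun x => inner ℝ x w) y ^ 2) := by
    intro y w
    rw [hsec y w w, real_inner_self_eq_norm_sq]
    have : (fun x : E => (inner ℝ x w : ℝ) ^ 2) = fun x => inner ℝ x w * inner ℝ x w := by
      funext x; ring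
    rw [this]
    ring
  refine ⟨⟨‖fderiv ℝ (WW U s) 0‖ + 2 * s, hW2, by positivity, ?_, ?_⟩, hgrad, hsec2⟩
  · intro y w
    rw [hsec2 y w]
    have hv := var_le h2 hU hs y w
    have : s ^ 2 * (av U s (fun x => (inner ℝ x w : ℝ) ^ 2) y -
        av U s (fun x => inner ℝ x w) y ^ 2) ≤ s ^ 2 * (‖w‖ ^ 2 / (t + s)) :=
      mul_le_mul_of_nonneg_left hv (sq_nonneg s)
    have e : t * s / (t + s) * ‖w‖ ^ 2 = s * ‖w‖ ^ 2 - s ^ 2 * (‖w‖ ^ 2 / (t + s)) := by
      field_simp
      ring
    rw [e]
    linarith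
  · intro y
    have hb : ∀ y, ‖fderiv ℝ (fderiv ℝ (WW U s)) y‖ ≤ 2 * s := by
      intro y
      refine ContinuousLinearMap.opNorm_le_bound _ (by positivity) fun e => ?_
      refine ContinuousLinearMap.opNorm_le_bound _ (by positivity) fun w => ?_
      rw [hsec y w e, Real.norm_eq_abs, abs_mul, abs_of_pos hs]
      have c1 := hes_cov h2 hU hs y w e
      have c2 := abs_real_inner_le_norm e w
      have c3 : |s * (av U s (fun x => inner ℝ x w * inner ℝ x e) y -
          av U s (fun x => inner ℝ x w) y * av U s (fun x => inner ℝ x e) y)| ≤ ‖w‖ * ‖e‖ := by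
        rw [abs_mul, abs_of_pos hs]
        calc _ ≤ s * (‖w‖ * ‖e‖ / s) := mul_le_mul_of_nonneg_left c1 hs.le
          _ = _ := by field_simp
      calc _ ≤ s * (‖e‖ * ‖w‖ + ‖w‖ * ‖e‖) :=
            mul_le_mul_of_nonneg_left ((abs_sub _ _).trans (add_le_add c2 c3)) hs.le
        _ = _ := by ring
    have hl := Convex.norm_image_sub_le_of_norm_fderiv_le (𝕜 := ℝ) (f := fderiv ℝ (WW U s))
      (s := Set.univ) (C := 2 * s) (x := 0) (y := y) (fun x _ => hd1 x)
      (fun x _ => hb x) convex_univ (Set.mem_univ _) (Set.mem_univ _)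
    rw [sub_zero] at hl
    have h3 : ‖fderiv ℝ (WW U s) y‖ ≤ ‖fderiv ℝ (WW U s) 0‖ + 2 * s * ‖y‖ := by
      have := norm_sub_norm_le (fderiv ℝ (WW U s) y) (fderiv ℝ (WW U s) 0)
      linarith
    have h4 := norm_nonneg (fderiv ℝ (WW U s) 0)
    have h5 := norm_nonneg y
    nlinarith [mul_nonneg h4 h5]

end Pool.Agent.H19.KL
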